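import Mathlib
import Pool.Agent.Q88.MF.Stm

set_option autoImplicit false

open Set MeasureTheory Filter Topology
open Pool.Agent.Q88.MF

noncomputable section

namespace Pool.Agent.Q214.MF

theorem mf_nonneg (a t : ℝ) : 0 ≤ mf a t := by
  unfold mf
  split_ifs with h1 h2
  · exact le_refl _
  · exact (Real.exp_pos _).le
  · push Not at h1; exact h1.le

theorem kap_nonneg (a r : ℝ) : 0 ≤ kap a r := by
  unfold kap
  split_ifs with h1 h2
  · exact le_refl _
  · push Not at h1
    have hl : Real.log r < 0 := Real.log_neg h1 h2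
    exact mul_nonneg h1.le (Real.rpow_nonneg (by linarith) _)
  · norm_num

theorem P_nonneg (a s r : ℝ) : 0 ≤ P a s r := le_max_of_le_right (kap_nonneg a r)

theorem int (h : S_ita) (h1 : S_mea) : S_int := by
  intro d a c ha had hc x0
  have hP : Measurable (fun x : E (d + 1) => P a (x 0) (rho x)) := h1 d a ha
  have hS : MeasurableSet {x : E (d + 1) | P a (x 0) (rho x) < 1} := measurableSet_lt hP measurable_const
  have hm1 : Measurable (fun x : E (d + 1) => (1 / P a (x 0) (rho x)) ^ d) :=
    (measurable_const.div hP).pow_const d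
  have hm2 : Measurable (fun x : E (d + 1) => (max 1 (c / P a (x 0) (rho x))) ^ d) :=
    (measurable_const.max (measurable_const.div hP)).pow_const d
  have hg : IntegrableOn (fun x : E (d + 1) => (1 / P a (x 0) (rho x)) ^ d)
      {x : E (d + 1) | P a (x 0) (rho x) < 1} volume := by
    refine ⟨hm1.aestronglyMeasurable, ?_⟩
    rw [hasFiniteIntegral_iff_ofReal]
    · exact h d a ha had
    · refine Filter.Eventually.of_forall fun x => ?_
      have := P_nonneg a (x 0) (rho x)
      change 0 ≤ (1 / P a (x 0) (rho x)) ^ d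
      positivity
  have hgi := hg.integrable_indicator hS
  refine ⟨Metric.ball x0 1, Metric.ball_mem_nhds x0 one_pos, ?_⟩
  have hc1 : IntegrableOn (fun _ : E (d + 1) => (1:ℝ)) (Metric.ball x0 1) volume :=
    integrableOn_const (measure_ball_lt_top).ne
  have hG : Integrable (fun x : E (d + 1) => (1 + c) ^ d *
      (indicator {x : E (d + 1) | P a (x 0) (rho x) < 1}
        (fun x : E (d + 1) => (1 / P a (x 0) (rho x)) ^ d) x + 1))
      (volume.restrict (Metric.ball x0 1)) :=
    (hgi.integrableOn.add hc1).const_mul _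
  refine Integrable.mono' hG hm2.aestronglyMeasurable ?_
  refine Filter.Eventually.of_forall fun x => ?_
  have hp := P_nonneg a (x 0) (rho x)
  have hM : 1 ≤ max 1 (c / P a (x 0) (rho x)) := le_max_left _ _
  have hM0 : 0 ≤ max 1 (c / P a (x 0) (rho x)) := by linarith
  rw [Real.norm_of_nonneg (pow_nonneg hM0 d)]
  have hcd : 0 ≤ (1 + c) ^ d := by positivity
  by_cases hx : P a (x 0) (rho x) < 1
  · rw [indicator_of_mem (show x ∈ {x : E (d + 1) | P a (x 0) (rho x) < 1} from hx)]
    rcases eq_or_lt_of_le hp with h0 | h0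
    · rw [← h0, div_zero, div_zero, max_eq_left (by norm_num : (0:ℝ) ≤ 1), one_pow]
      have g1 : 1 ≤ (1 + c) ^ d := one_le_pow₀ (by linarith)
      have g2 : (0:ℝ) ≤ 0 ^ d := by positivity
      nlinarith
    · have g1 : max 1 (c / P a (x 0) (rho x)) ≤ (1 + c) * (1 / P a (x 0) (rho x)) := by
        rw [mul_one_div]
        refine max_le ?_ ?_
        · rw [le_div_iff₀ h0]; linarith
        · exact (div_le_div_iff_of_pos_right h0).mpr (by linarith)
      calc (max 1 (c / P a (x 0) (rho x))) ^ d ≤ ((1 + c) * (1 / P a (x 0) (rho x))) ^ d :=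
            pow_le_pow_left₀ hM0 g1 d
        _ = (1 + c) ^ d * (1 / P a (x 0) (rho x)) ^ d := mul_pow _ _ _
        _ ≤ (1 + c) ^ d * ((1 / P a (x 0) (rho x)) ^ d + 1) :=
            mul_le_mul_of_nonneg_left (by linarith) hcd
  · rw [indicator_of_notMem (show x ∉ {x : E (d + 1) | P a (x 0) (rho x) < 1} from hx)]
    push Not at hx
    have g1 : max 1 (c / P a (x 0) (rho x)) ≤ 1 + c := by
      refine max_le (by linarith) ?_
      have : c / P a (x 0) (rho x) ≤ c := div_le_self hc.le hx
      linarith
    calc (max 1 (c / P a (x 0) (rho x))) ^ d ≤ (1 + c) ^ d := pow_le_pow_left₀ hM0 g1 d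
      _ = (1 + c) ^ d * (0 + 1) := by ring

end Pool.Agent.Q214.MF
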