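import Mathlib
import Pool.Agent.Q88.MF.Stm

set_option autoImplicit false

open Set MeasureTheory Filter Topology
open Pool.Agent.Q88.MF

noncomputable section

namespace Pool.Agent.Q214.MF

theorem lev : S_lev := by
  intro a s r j ha hr hj hP
  have hj1 : (1:ℝ) ≤ (j:ℝ) := by exact_mod_cast hj
  have hJ : (0:ℝ) < 1 + (j:ℝ) := by positivity
  have ha0 : 0 < a := by linarith
  have h1 : mf a |s| / |s| ≤ Real.exp (-(j:ℝ)) := le_trans (le_max_left _ _) hP
  have h2 : kap a r ≤ Real.exp (-(j:ℝ)) := le_trans (le_max_right _ _) hP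
  have he : Real.exp (-(j:ℝ)) < 1 := by
    rw [Real.exp_lt_one_iff]; linarith
  have hep := Real.exp_pos (-(j:ℝ))
  constructor
  · rcases eq_or_lt_of_le (abs_nonneg s) with hs | hs
    · rw [← hs]; positivity
    · have hs1 : |s| < 1 := by
        by_contra hc
        push Not at hc
        have h3 : mf a |s| / |s| = 1 := by
          unfold mf
          rw [if_neg (not_le.mpr hs), if_neg (not_lt.mpr hc), div_self hs.ne']
        linarith
      have h3 : mf a |s| = Real.exp (1 - |s| ^ (-a)) := by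
        unfold mf
        rw [if_neg (not_le.mpr hs), if_pos hs1]
      rw [h3, div_le_iff₀ hs] at h1
      have h4 : Real.exp (1 - |s| ^ (-a)) ≤ Real.exp (-(j:ℝ)) := le_trans h1 (by nlinarith)
      have h5 : 1 + (j:ℝ) ≤ |s| ^ (-a) := by
        have := Real.exp_le_exp.mp h4
        linarith
      have h6 : (|s| ^ (-a)) ^ (-(1 / a)) = |s| := by
        rw [← Real.rpow_mul hs.le]
        have h7 : -a * -(1 / a) = 1 := by field_simp
        rw [h7, Real.rpow_one]
      have h8 : -(1 / a) ≤ 0 := by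
        have : 0 < 1 / a := by positivity
        linarith
      calc |s| = (|s| ^ (-a)) ^ (-(1 / a)) := h6.symm
        _ ≤ (1 + (j:ℝ)) ^ (-(1 / a)) := Real.rpow_le_rpow_of_nonpos hJ h5 h8
  · rcases eq_or_lt_of_le hr with h | h
    · rw [← h]; positivity
    · have hr1 : r < 1 := by
        by_contra hc
        push Not at hc
        have h3 : kap a r = 1 := by
          unfold kap
          rw [if_neg (not_le.mpr h), if_neg (not_lt.mpr hc)]
        linarith
      have h3 : kap a r = r * (1 - Real.log r) ^ (1 / a) := by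
        unfold kap
        rw [if_neg (not_le.mpr h), if_pos hr1]
      rw [h3] at h2
      have hl : Real.log r < 0 := Real.log_neg h hr1
      have hia : 0 ≤ 1 / a := by positivity
      have h4 : 1 ≤ (1 - Real.log r) ^ (1 / a) := Real.one_le_rpow (by linarith) hia
      have h5 : r ≤ Real.exp (-(j:ℝ)) := le_trans (by nlinarith) h2
      have h6 : Real.log r ≤ -(j:ℝ) := by
        rw [← Real.log_exp (-(j:ℝ))]
        exact Real.log_le_log h h5
      have h7 : (1 + (j:ℝ)) ^ (1 / a) ≤ (1 - Real.log r) ^ (1 / a) :=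
        Real.rpow_le_rpow hJ.le (by linarith) hia
      have h8 : r * (1 + (j:ℝ)) ^ (1 / a) ≤ Real.exp (-(j:ℝ)) :=
        le_trans (mul_le_mul_of_nonneg_left h7 h.le) h2
      rw [Real.rpow_neg hJ.le, ← div_eq_mul_inv, le_div_iff₀ (Real.rpow_pos_of_pos hJ _)]
      exact h8

theorem mod_aux (a β C R : ℝ) (ha : 1 < a) (hβ : 0 < β) (haβ : 1 < a * β) (hR : 0 < R) :
    ∃ s : ℝ, 0 < s ∧ s < 1 ∧ mf a s < R ∧ C * Real.log (R / mf a s) ^ (-β) < s := by
  have ha0 : 0 < a := by linarith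
  have hd : 0 < a * β - 1 := by linarith
  have t1 : Tendsto (fun x : ℝ => x ^ a) atTop atTop := tendsto_rpow_atTop ha0
  have t2 : Tendsto (fun x : ℝ => x ^ (-(a * β - 1))) atTop (𝓝 0) := tendsto_rpow_neg_atTop hd
  have hK : 0 < |C| * 2 ^ β + 1 := by positivity
  have e1 : ∀ᶠ x : ℝ in atTop, 2 * |Real.log R - 1| + 1 ≤ x ^ a := t1.eventually_ge_atTop _
  have e2 : ∀ᶠ x : ℝ in atTop, x ^ (-(a * β - 1)) < 1 / (|C| * 2 ^ β + 1) :=
    t2.eventually_lt_const (by positivity)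
  have e3 : ∀ᶠ x : ℝ in atTop, 1 < x := eventually_gt_atTop 1
  obtain ⟨x, hx1, hx2, hx3⟩ := (e1.and (e2.and e3)).exists
  have hx0 : 0 < x := by linarith
  have hs0 : 0 < x⁻¹ := inv_pos.mpr hx0
  have hs1 : x⁻¹ < 1 := inv_lt_one_of_one_lt₀ hx3
  have hsa : (x⁻¹) ^ (-a) = x ^ a := by
    rw [Real.inv_rpow hx0.le, Real.rpow_neg hx0.le, inv_inv]
  have hm : mf a x⁻¹ = Real.exp (1 - x ^ a) := by
    unfold mf
    rw [if_neg (not_le.mpr hs0), if_pos hs1, hsa]
  have hmp : 0 < mf a x⁻¹ := by rw [hm]; exact Real.exp_pos _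
  have hlog : Real.log (R / mf a x⁻¹) = Real.log R - 1 + x ^ a := by
    rw [Real.log_div hR.ne' hmp.ne', hm, Real.log_exp]; ring
  have hab : -|Real.log R - 1| ≤ Real.log R - 1 := neg_abs_le _
  have hnn : 0 ≤ |Real.log R - 1| := abs_nonneg _
  have hL : x ^ a / 2 ≤ Real.log R - 1 + x ^ a := by linarith
  have hxa : 0 < x ^ a := Real.rpow_pos_of_pos hx0 _
  refine ⟨x⁻¹, hs0, hs1, ?_, ?_⟩
  · rw [hm, ← Real.lt_log_iff_exp_lt hR]
    linarith
  · rw [hlog]
    have hLp : 0 < Real.log R - 1 + x ^ a := by linarith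
    have g1 : (Real.log R - 1 + x ^ a) ^ (-β) ≤ (x ^ a / 2) ^ (-β) :=
      Real.rpow_le_rpow_of_nonpos (by positivity) hL (by linarith)
    have g2 : (x ^ a / 2) ^ (-β) = 2 ^ β * (x ^ (-(a * β - 1)) * x⁻¹) := by
      rw [Real.div_rpow hxa.le (by norm_num), ← Real.rpow_mul hx0.le,
        Real.rpow_neg (by norm_num : (0:ℝ) ≤ 2), div_eq_mul_inv, inv_inv, mul_comm]
      congr 1
      rw [← Real.rpow_neg_one x, ← Real.rpow_add hx0]
      congr 1
      ring
    have g3 : 0 ≤ (Real.log R - 1 + x ^ a) ^ (-β) := by positivity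
    have g4 : C * (Real.log R - 1 + x ^ a) ^ (-β) ≤ |C| * (2 ^ β * (x ^ (-(a * β - 1)) * x⁻¹)) := by
      calc C * (Real.log R - 1 + x ^ a) ^ (-β) ≤ |C| * (Real.log R - 1 + x ^ a) ^ (-β) :=
            mul_le_mul_of_nonneg_right (le_abs_self C) g3
        _ ≤ |C| * (x ^ a / 2) ^ (-β) := mul_le_mul_of_nonneg_left g1 (abs_nonneg C)
        _ = _ := by rw [g2]
    have hy : 0 < x ^ (-(a * β - 1)) := Real.rpow_pos_of_pos hx0 _
    rw [lt_div_iff₀ hK] at hx2
    have g5 : |C| * 2 ^ β * x ^ (-(a * β - 1)) < 1 := by nlinarith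
    calc C * (Real.log R - 1 + x ^ a) ^ (-β) ≤ |C| * (2 ^ β * (x ^ (-(a * β - 1)) * x⁻¹)) := g4
      _ = (|C| * 2 ^ β * x ^ (-(a * β - 1))) * x⁻¹ := by ring
      _ < 1 * x⁻¹ := mul_lt_mul_of_pos_right g5 hs0
      _ = x⁻¹ := one_mul _

theorem mod (_h : S_rat) : S_mod := fun a β C R ha hβ haβ hR => mod_aux a β C R ha hβ haβ hR

end Pool.Agent.Q214.MF
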